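import Pool.Agent.H90.STK.Stmts

/-!
# STK, module TAP: the properties of the Vandermonde sum
-/

set_option autoImplicit false

namespace Pool.STK

open Finset Real MeasureTheory
open Pool.Agent.H49.Ent Pool.Agent.H32.Dense

namespace TAP

lemma ev_TA {Ω : Type} {m : ℕ} (k₀ j : ℕ) (A : Ω → (Fin m → ℤ) × (Fin m → ℤ))
    (w : Fin (k₀ - 1) × Fin k₀ → Ω) :
    ev j (TA k₀ A w) = ∑ x, (((x.2 : ℕ) : ℤ) ^ (x.1 : ℕ)) • ev j (A (w x)) := by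
  unfold ev TA
  rw [Prod.fst_sum, Prod.snd_sum, Finset.smul_sum, ← Finset.sum_add_distrib]
  refine Finset.sum_congr rfl fun x _ => ?_
  rw [Prod.smul_fst, Prod.smul_snd, smul_add, smul_comm]

end TAP

theorem tap_thm (hPRD : PRDStmt) (hCTS : CTSStmt) (hSUM : SUMStmt) : TAPStmt := by
  intro m k₀ Ω₀ Ω _ _ p₀ p A hp₀ hp hk
  have h0 : 0 < k₀ - 1 := by omega
  have h0' : 0 < k₀ := by omega
  have habs : ∀ x : Fin (k₀ - 1) × Fin k₀,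
      |((((x.2 : ℕ) : ℤ) ^ (x.1 : ℕ) : ℤ) : ℝ)| = ((x.2 : ℕ) : ℝ) ^ (x.1 : ℕ) := by
    intro x
    rw [Int.cast_pow, Int.cast_natCast]
    exact abs_of_nonneg (by positivity)
  have hKc : (∑ x : Fin (k₀ - 1) × Fin k₀, |((((x.2 : ℕ) : ℤ) ^ (x.1 : ℕ) : ℤ) : ℝ)|) = Kc k₀ := by
    unfold Kc
    exact Finset.sum_congr rfl fun x _ => habs x
  refine ⟨(hPRD Ω (Fin (k₀ - 1) × Fin k₀) Unit p hp).1, ?_, ?_, ?_, ?_⟩
  · intro x C j hC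
    have h := hCTS Ω₀ Ω (Fin (k₀ - 1) × Fin k₀) (Fin m → ℤ) p₀ p x (fun ω => ev j (A ω)) C
      (fun x => ((x.2 : ℕ) : ℤ) ^ (x.1 : ℕ)) hp₀ hp hC
    rw [hKc] at h
    have he : (fun w : Fin (k₀ - 1) × Fin k₀ → Ω => ev j (TA k₀ A w)) =
        fun w => ∑ x, (((x.2 : ℕ) : ℤ) ^ (x.1 : ℕ)) • ev j (A (w x)) :=
      funext fun w => TAP.ev_TA k₀ j A w
    rw [he]
    exact h
  · have h := hSUM Ω (Fin (k₀ - 1) × Fin k₀) Unit (Fin m → ℤ) p (fun ω => (A ω).2)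
      (fun x => ((x.2 : ℕ) : ℤ) ^ (x.1 : ℕ)) (fun _ => (⟨0, h0⟩, ⟨0, h0'⟩)) hp
      (fun _ _ _ => rfl)
    have hm := (hPRD Ω Unit Unit p hp).2.1 ()
    have h1 : H (prd p : (Unit → Ω) → ℝ) (fun w => ∑ i : Unit,
        (((((⟨0, h0⟩, ⟨0, h0'⟩) : Fin (k₀ - 1) × Fin k₀).2 : ℕ) : ℤ) ^
          ((((⟨0, h0⟩, ⟨0, h0'⟩) : Fin (k₀ - 1) × Fin k₀).1 : ℕ))) • (A (w i)).2) =
        H p (fun ω => (A ω).2) := by
      rw [← hm.H (fun ω => (A ω).2)]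
      have : (fun w : Unit → Ω => ∑ i : Unit,
          (((((⟨0, h0⟩, ⟨0, h0'⟩) : Fin (k₀ - 1) × Fin k₀).2 : ℕ) : ℤ) ^
            ((((⟨0, h0⟩, ⟨0, h0'⟩) : Fin (k₀ - 1) × Fin k₀).1 : ℕ))) • (A (w i)).2) =
          fun w => (A (w ())).2 := by
        funext w
        simp
      rw [this]
    have h2 : (fun w : Fin (k₀ - 1) × Fin k₀ → Ω => (TA k₀ A w).2) =
        fun w => ∑ x, (((x.2 : ℕ) : ℤ) ^ (x.1 : ℕ)) • (A (w x)).2 := by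
      funext w
      unfold TA
      rw [Prod.snd_sum]
      rfl
    rw [h2, ← h1]
    exact h
  · intro M hM w i
    have key : ∀ B : Ω → Fin m → ℤ, (∀ ω, |(B ω i : ℝ)| ≤ M) →
        |((∑ x : Fin (k₀ - 1) × Fin k₀, (((x.2 : ℕ) : ℤ) ^ (x.1 : ℕ)) • B (w x)) i : ℝ)| ≤
          Kc k₀ * M := by
      intro B hB
      have e1 : (((∑ x : Fin (k₀ - 1) × Fin k₀, (((x.2 : ℕ) : ℤ) ^ (x.1 : ℕ)) • B (w x)) i : ℤ) : ℝ)
          = ∑ x : Fin (k₀ - 1) × Fin k₀, ((((x.2 : ℕ) : ℤ) ^ (x.1 : ℕ) : ℤ) : ℝ) * (B (w x) i : ℝ) := by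
        rw [Finset.sum_apply, Int.cast_sum]
        refine Finset.sum_congr rfl fun x _ => ?_
        rw [Pi.smul_apply, smul_eq_mul, Int.cast_mul]
      rw [e1]
      refine le_trans (Finset.abs_sum_le_sum_abs _ _) ?_
      unfold Kc
      rw [Finset.sum_mul]
      refine Finset.sum_le_sum fun x _ => ?_
      rw [abs_mul, habs x]
      exact mul_le_mul_of_nonneg_left (hB (w x)) (by positivity)
    have h1 := key (fun ω => (A ω).1) (fun ω => (hM ω i).1)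
    have h2 := key (fun ω => (A ω).2) (fun ω => (hM ω i).2)
    unfold TA
    rw [Prod.fst_sum, Prod.snd_sum]
    exact ⟨h1, h2⟩
  · unfold Kc
    have h1 : ((((⟨0, h0⟩, ⟨0, h0'⟩) : Fin (k₀ - 1) × Fin k₀).2 : ℕ) : ℝ) ^
        ((((⟨0, h0⟩, ⟨0, h0'⟩) : Fin (k₀ - 1) × Fin k₀).1 : ℕ)) = 1 := by simp
    calc (1 : ℝ) = ((((⟨0, h0⟩, ⟨0, h0'⟩) : Fin (k₀ - 1) × Fin k₀).2 : ℕ) : ℝ) ^
        ((((⟨0, h0⟩, ⟨0, h0'⟩) : Fin (k₀ - 1) × Fin k₀).1 : ℕ)) := h1.symm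
      _ ≤ _ := Finset.single_le_sum
        (f := fun x : Fin (k₀ - 1) × Fin k₀ => ((x.2 : ℕ) : ℝ) ^ (x.1 : ℕ))
        (fun x _ => by positivity) (Finset.mem_univ _)

end Pool.STK
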