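import Pool.Agent.H90.STK.Stmts

/-!
# STK, module W5: decomposition of an integral into windows
-/

set_option autoImplicit false

namespace Pool.STK

open Finset Real MeasureTheory

theorem w5_thm : W5Stmt := by
  intro g k hg
  have h2 : (0 : ℝ) < 2 ^ k := by positivity
  have hsum := intervalIntegral.sum_integral_adjacent_intervals (f := g) (μ := volume)
    (a := fun w : ℕ => (w : ℝ) / 2 ^ k) (n := 2 ^ k) (by
      intro w hw
      refine hg.mono_set ?_
      rw [Set.uIcc_of_le zero_le_one]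
      have h0 : (0 : ℝ) ≤ (w : ℝ) / 2 ^ k := by positivity
      have h1 : (w : ℝ) / 2 ^ k ≤ ((w + 1 : ℕ) : ℝ) / 2 ^ k := by
        apply div_le_div_of_nonneg_right _ h2.le
        push_cast
        linarith
      have h3 : ((w + 1 : ℕ) : ℝ) / 2 ^ k ≤ 1 := by
        rw [div_le_one h2]
        have : w + 1 ≤ 2 ^ k := hw
        exact_mod_cast this
      rw [Set.uIcc_of_le h1]
      exact Set.Icc_subset_Icc h0 h3)
  have e0 : ((0 : ℕ) : ℝ) / 2 ^ k = 0 := by simp
  have e1 : ((2 ^ k : ℕ) : ℝ) / 2 ^ k = 1 := by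
    push_cast
    exact div_self h2.ne'
  simp only [e0, e1] at hsum
  rw [← hsum]
  refine Finset.sum_congr rfl fun w _ => ?_
  have h4 := intervalIntegral.integral_comp_add_mul (a := (0 : ℝ)) (b := 1) g
    (c := ((2 : ℝ) ^ k)⁻¹) (by positivity) ((w : ℝ) / 2 ^ k)
  have h5 : ∀ s : ℝ, (w : ℝ) / 2 ^ k + s * (2 ^ k)⁻¹ = (w : ℝ) / 2 ^ k + (2 ^ k)⁻¹ * s := by
    intro s
    ring
  simp only [h5]
  rw [h4, inv_inv, smul_eq_mul, ← mul_assoc, inv_mul_cancel₀ h2.ne', one_mul, mul_zero, add_zero,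
    mul_one]
  have h6 : ((w + 1 : ℕ) : ℝ) / 2 ^ k = (w : ℝ) / 2 ^ k + (2 ^ k)⁻¹ := by
    push_cast
    rw [add_div, one_div]
  rw [h6]

end Pool.STK
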